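import Pool.Agent.Y646.CO.Mem

/-!
# Cyclic orderings of bipartite graphs with a dominating edge

Deciding whether a bipartite graph has a cyclic ordering without alternating-edge obstruction is
NP-complete, even for bipartite graphs with a dominating edge (two adjacent vertices such that
every vertex is adjacent to one of them), which are connected and of diameter at most three.
-/

set_option autoImplicit false

namespace Pool.Agent.Results.MP_7399ce_lc.DominatingEdge

open Pool.Agent.NPC Pool.Agent.H495R3.Cy Pool.Agent.H622R2 Pool.Agent.Y646.CO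

/-- The problem is `NP`-complete, also restricted to graphs with a dominating edge; graphs with a
dominating edge are connected and have diameter at most three; all instances of the reduction are
bipartite graphs with a dominating edge; a polynomial-time algorithm that is correct for bipartite
graphs with a dominating edge exists iff `P = NP`. -/
theorem result :
    (InNPP BipGoodOrdering ∧ NPHardP BipGoodOrdering) ∧
    (InNPP (fun M => BipGoodOrdering M ∧ DomEdge (matGraph M)) ∧
      NPHardP (fun M => BipGoodOrdering M ∧ DomEdge (matGraph M))) ∧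
    (∀ {V : Type} (G : SimpleGraph V), DomEdge G → G.Connected ∧ ∀ u v, G.dist u v ≤ 3) ∧
    (∀ L : Set (List Bool), InNP L → ∃ f : List Bool → List (List Bool),
      PolyTime (fun x => bits (f x)) ∧ ∀ x, (matGraph (f x)).IsBipartite ∧
        DomEdge (matGraph (f x)) ∧ (x ∈ L ↔ HasGoodOrdering (matGraph (f x)))) ∧
    ((∃ D : List Bool → List Bool, PolyTime D ∧ ∀ M : List (List Bool),
      (matGraph M).IsBipartite → DomEdge (matGraph M) →
        (D (bits M) = [true] ↔ HasGoodOrdering (matGraph M))) ↔
      ∀ L : Set (List Bool), InNP L → InP L) := by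
  have key : ∀ L : Set (List Bool), InNP L → ∃ f : List Bool → List (List Bool),
      PolyTime (fun x => bits (f x)) ∧ ∀ x, (matGraph (f x)).IsBipartite ∧
        DomEdge (matGraph (f x)) ∧ (x ∈ L ↔ HasGoodOrdering (matGraph (f x))) := by
    intro L hL
    obtain ⟨f, hf, hpr, hfL⟩ := hardPr_BipDom L hL
    exact ⟨f, PC.toPolyTime hf, fun x => ⟨(hpr x).1, (hpr x).2,
      (hfL x).trans ⟨fun h => h.2, fun h => ⟨(hpr x).1, h⟩⟩⟩⟩
  refine ⟨⟨inNPP_bip, hardPr_BipDom.toHardI.toNPHardP⟩, ⟨inNPP_dom, HardI.toNPHardP ?_⟩,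
    fun G h => h.dist_le, key, ?_, ?_⟩
  · intro L hL
    obtain ⟨f, hf, hpr, hfL⟩ := hardPr_BipDom L hL
    exact ⟨f, hf, fun x => (hfL x).trans ⟨fun h => ⟨h, (hpr x).2⟩, fun h => h.1⟩⟩
  · rintro ⟨D, hD, hD'⟩ L hL
    obtain ⟨f, hf, hfL⟩ := key L hL
    refine ⟨fun x => D (bits (f x)), Pool.Agent.H642R2.TMSim.polyTime_comp hD hf, fun x => ?_⟩
    rw [(hfL x).2.2]
    exact (hD' _ (hfL x).1 (hfL x).2.1).symm
  · intro hP
    obtain ⟨V, hV, hV'⟩ := hP _ inNPP_bip
    refine ⟨V, hV, fun M h1 _ => ?_⟩
    rw [← hV', bits_mem_lang]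
    exact ⟨fun h => h.2, fun h => ⟨h1, h⟩⟩

end Pool.Agent.Results.MP_7399ce_lc.DominatingEdge
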